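import Pool.Agent.Q239.Sul.Bridge

/-!
# Sulanke's conjecture on three-row rectangular tableaux

The statistic `st₁ = b_{1,2} + b_{2,2} + b_{2,3} - 2` on the standard Young tableaux with three rows
and `n` columns has a `3`-Narayana distribution, for every `n ≥ 1` (question Q1, affirmative answer).

Idea of the proof. Tableaux are ballot words. For a statistic `f` on the ballot words with `x`, `y`,
`z` letters put `A(m, M) = ∑ binomial(m + f, M)`. For the first statistic the last letter can be
eliminated; this gives a local recursion, whose solution is a double sum of binomial coefficients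
and numbers of ballot words (hook formula). At the rectangle, with `M = 3 n`, the double sum is
evaluated by a telescoping sum and the Pfaff-Saalschütz identity. For the ascents the sum is a
`3 × 3` determinant of binomial coefficients. Both values are
`2 m! (m+1)! (m+2)! / (n! (n+1)! (n+2)! (m-n)! (m-n+1)! (m-n+2)!)`.
-/

open Finset

namespace Pool.Agent.Results.MP_6dddfa_co.Sulanke

/-- `T` is a standard Young tableau of rectangular shape with `3` rows and `n` columns: `T r c` is
the entry in row `r + 1` and column `c + 1`; the entries are `1, ..., 3 n`, each used once, and they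
increase along each row and down each column. -/
structure IsSYT (n : ℕ) (T : Fin 3 → Fin n → ℕ) : Prop where
  row : ∀ r, StrictMono (T r)
  col : ∀ c, StrictMono fun r => T r c
  entries : Set.BijOn (fun p : Fin 3 × Fin n => T p.1 p.2) Set.univ (Set.Icc 1 (3 * n))

/-- `b_{r,s}(T)`: the number of `i` such that `i` is in row `r` and `i + 1` in row `s` (the rows are
numbered `0, 1, 2` here) -/
noncomputable def b {n : ℕ} (T : Fin 3 → Fin n → ℕ) (r s : Fin 3) : ℕ :=
  {i : ℕ | (∃ c, T r c = i) ∧ ∃ c, T s c = i + 1}.ncard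

/-- the number of ascents: of the `i` such that `i + 1` is in a row with a smaller number than the
row of `i` -/
noncomputable def asc {n : ℕ} (T : Fin 3 → Fin n → ℕ) : ℕ :=
  {i : ℕ | ∃ r s : Fin 3, s < r ∧ (∃ c, T r c = i) ∧ ∃ c, T s c = i + 1}.ncard

/-- `st₁ = b_{1,2} + b_{2,2} + b_{2,3} - 2` -/
noncomputable def st₁ {n : ℕ} (T : Fin 3 → Fin n → ℕ) : ℤ :=
  (b T 0 1 : ℤ) + b T 1 1 + b T 1 2 - 2

/-- the `3`-Narayana number `N(3, n, h)` -/
noncomputable def narayana (n : ℕ) (h : ℤ) : ℕ :=
  {T : Fin 3 → Fin n → ℕ | IsSYT n T ∧ (asc T : ℤ) = h}.ncard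

open Q239.Sul in
lemma isSYT_iff {n : ℕ} {T : Fin 3 → Fin n → ℕ} : IsSYT n T ↔ Q239.Sul.IsSYT n T :=
  ⟨fun h => ⟨h.row, h.col, h.entries⟩, fun h => ⟨h.row, h.col, h.entries⟩⟩

open Q239.Sul in
lemma stat_three : ∀ l : List (Fin 3), stat (fun r s => decide (r = 0 ∧ s = 1)) l +
    stat (fun r s => decide (r = 1 ∧ s = 1)) l + stat (fun r s => decide (r = 1 ∧ s = 2)) l =
      stat DS l
  | [] => rfl
  | [_] => rfl
  | x :: y :: l => by
    have := stat_three (y :: l)
    rw [stat_cons, stat_cons, stat_cons, stat_cons]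
    rw [← this]
    fin_cases x <;> fin_cases y <;> simp [DS] <;> ring

open Q239.Sul in
lemma b_eq {n : ℕ} {T : Fin 3 → Fin n → ℕ} (hT : Q239.Sul.IsSYT n T) (r s : Fin 3) :
    b T r s = stat (fun r' s' => decide (r' = r ∧ s' = s)) (word T) := by
  rw [← pairs_stat hT]
  unfold b
  congr 1
  ext i
  simp

open Q239.Sul in
lemma asc_eq {n : ℕ} {T : Fin 3 → Fin n → ℕ} (hT : Q239.Sul.IsSYT n T) :
    asc T = stat DA (word T) := by
  rw [← pairs_stat hT]
  unfold asc
  congr 1
  ext i
  simp [DA]

open Q239.Sul in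
lemma count_eq {n : ℕ} (P : List (Fin 3) → Prop) [DecidablePred P] :
    {T : Fin 3 → Fin n → ℕ | Q239.Sul.IsSYT n T ∧ P (word T)}.ncard = ((WW n).filter P).card := by
  rw [← Set.ncard_coe_finset, ← Set.ncard_image_of_injOn (f := word)]
  · congr 1
    ext l
    simp only [Set.mem_image, Set.mem_ofPred_eq, coe_filter]
    constructor
    · rintro ⟨T, ⟨hT, hP⟩, rfl⟩
      exact ⟨word_mem hT, hP⟩
    · rintro ⟨hl, hP⟩
      obtain ⟨T, hT, rfl⟩ := word_surj hl
      exact ⟨T, ⟨hT, hP⟩, rfl⟩
  · intro T hT T' hT' h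
    exact word_inj hT.1 hT'.1 h

open Q239.Sul in
/-- **Sulanke's conjecture**: for every `n ≥ 1` the statistic `st₁` has a `3`-Narayana distribution
on the standard Young tableaux with three rows and `n` columns. -/
theorem result (n : ℕ) (hn : 1 ≤ n) (h : ℤ) :
    {T : Fin 3 → Fin n → ℕ | IsSYT n T ∧ st₁ T = h}.ncard = narayana n h := by
  have e1 : {T : Fin 3 → Fin n → ℕ | IsSYT n T ∧ st₁ T = h} =
      {T : Fin 3 → Fin n → ℕ | Q239.Sul.IsSYT n T ∧ (stat DS (word T) : ℤ) - 2 = h} := by
    ext T
    simp only [Set.mem_ofPred_eq]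
    rw [isSYT_iff]
    refine and_congr_right fun hT => ?_
    unfold st₁
    rw [b_eq hT, b_eq hT, b_eq hT, ← stat_three]
    push_cast
    rfl
  have e2 : {T : Fin 3 → Fin n → ℕ | IsSYT n T ∧ (asc T : ℤ) = h} =
      {T : Fin 3 → Fin n → ℕ | Q239.Sul.IsSYT n T ∧ (stat DA (word T) : ℤ) = h} := by
    ext T
    simp only [Set.mem_ofPred_eq]
    rw [isSYT_iff]
    refine and_congr_right fun hT => ?_
    rw [asc_eq hT]
  unfold narayana
  rw [e1, e2, count_eq (fun l => (stat DS l : ℤ) - 2 = h), count_eq (fun l => (stat DA l : ℤ) = h)]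
  by_cases h0 : 0 ≤ h + 2
  · have f1 : (WW n).filter (fun l => (stat DS l : ℤ) - 2 = h) =
        (WW n).filter (fun l => stat DS l = (h + 2).toNat) :=
      filter_congr fun l _ => by omega
    have f2 : (WW n).filter (fun l => (stat DA l : ℤ) = h) =
        (WW n).filter (fun l => stat DA l + 2 = (h + 2).toNat) :=
      filter_congr fun l _ => by omega
    rw [f1, f2]
    exact words n hn _
  · rw [filter_false_of_mem, filter_false_of_mem]
    · intro l _ _
      omega
    · intro l _ _
      omega

end Pool.Agent.Results.MP_6dddfa_co.Sulanke
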